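import Pool.Agent.H8.UG.BCO

/-!
# MP_404602_al: the uniserial dimension under finite separable base change

`UD R` is defined in `Pool.Agent.H56.UD.Defs`.
-/

open TensorProduct Ordinal

namespace Pool.Agent.Results.MP_404602_al.BaseChange

open Pool.Agent.H56.UDs

/-- Let `K / k` be a finite separable extension of fields. There is a natural number `c`, equal to
the degree if `K / k` is Galois, such that for every right noetherian `k`-algebra `R`:
`UD (K ⊗ R) = ∞` exactly if `UD R = ∞`, and if the two values are the ordinals `ρ'` and `ρ`, then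
`ρ' + 1 ≤ [K : k] (ρ + 1)` and `ρ + 1 ≤ c (ρ' + 1)`, and so `ρ` and `ρ'` differ only in their
finite parts: `ρ = ω a + m`, `ρ' = ω a + n` with `m`, `n` natural numbers. -/
theorem result : ∀ (k K : Type) [Field k] [Field K] [Algebra k K] [FiniteDimensional k K]
    [Algebra.IsSeparable k K], ∃ c : ℕ, (IsGalois k K → c = Module.finrank k K) ∧
    ∀ (R : Type) [Ring R] [Algebra k R] [IsNoetherianRing Rᵐᵒᵖ],
      (UD (K ⊗[k] R) = ⊤ ↔ UD R = ⊤) ∧
      ∀ ρ ρ' : Ordinal.{0}, UD R = ρ → UD (K ⊗[k] R) = ρ' →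
        ρ' + 1 ≤ (Module.finrank k K : Ordinal.{0}) * (ρ + 1) ∧
        ρ + 1 ≤ (c : Ordinal.{0}) * (ρ' + 1) ∧ ρ / ω = ρ' / ω :=
  Pool.Agent.H8.UG.bco

end Pool.Agent.Results.MP_404602_al.BaseChange
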