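import Pool.Agent.H8.UB.All

/-!
# MP_404602_al: reduction of the value set of the uniserial dimension to countable artin algebras

`UD R` is defined in `Pool.Agent.H56.UD.Defs`, `IsArtinAlg` in `Pool.Agent.H8.UB.Targets`.
-/

namespace Pool.Agent.Results.MP_404602_al.CountableAlgebras

open Pool.Agent.H56.UDs Pool.Agent.H8.UB

/-- Let `R` be an artin algebra whose uniserial dimension is an ordinal `ρ`, and let `γ ≤ ρ` be a
countable ordinal. Then there is a countable artin algebra `R₀` whose uniserial dimension `ρ₀` is a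
countable ordinal with `γ ≤ ρ₀`, and `ρ₀ = ρ` if `ρ` is countable. -/
theorem result (R : Type) [Ring R] (hR : IsArtinAlg R) (ρ : Ordinal.{0}) (hρ : UD R = ρ)
    (γ : Ordinal.{0}) (hγ : γ ≤ ρ) (hγ' : γ.card ≤ Cardinal.aleph0) :
    ∃ (R₀ : Type) (_ : Ring R₀) (_ : Countable R₀) (ρ₀ : Ordinal.{0}), IsArtinAlg R₀ ∧
      UD R₀ = ρ₀ ∧ γ ≤ ρ₀ ∧ ρ₀.card ≤ Cardinal.aleph0 ∧ (ρ.card ≤ Cardinal.aleph0 → ρ₀ = ρ) := by
  obtain ⟨h1, h2⟩ := all_ART R hR ρ hρ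
  by_cases h : ρ.card ≤ Cardinal.aleph0
  · obtain ⟨R₀, i1, i2, hA, hU⟩ := h1 h
    exact ⟨R₀, i1, i2, ρ, hA, hU, hγ, h, fun _ => rfl⟩
  · obtain ⟨R₀, i1, i2, ρ₀, hA, hU, hle, hc⟩ := h2 γ hγ hγ'
    exact ⟨R₀, i1, i2, ρ₀, hA, hU, hle, hc, fun h' => absurd h' h⟩

end Pool.Agent.Results.MP_404602_al.CountableAlgebras
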