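import Pool.Agent.H8.UG.All

/-!
# MP_404602_al: one countable bound for the ordinal values of the uniserial dimension

`UD R` is defined in `Pool.Agent.H56.UD.Defs`.
-/

open TensorProduct

namespace Pool.Agent.Results.MP_404602_al.CountableBound

open Pool.Agent.H56.UDs

/-- There is one countable ordinal `β` such that for every field `k` and every finite-dimensional
`k`-algebra `R`: `UD (R ⊗ k̄) = ∞` or `UD R < β`; and `UD R = ∞` or `UD R < β` if some finite
separable extension `k'` of `k` is a finitely generated extension of an algebraically closed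
field `K`. -/
theorem result : ∃ β : Ordinal.{0}, β.card ≤ Cardinal.aleph0 ∧
    (∀ (k : Type) [Field k] (R : Type) [Ring R] [Algebra k R] [Module.Finite k R],
      UD (AlgebraicClosure k ⊗[k] R) = ⊤ ∨ ∃ α : Ordinal.{0}, α < β ∧ UD R = α) ∧
    ∀ (k k' K : Type) [Field k] [Field k'] [Field K] [Algebra k k'] [FiniteDimensional k k']
      [Algebra.IsSeparable k k'] [IsAlgClosed K] [Algebra K k'],
      (⊤ : IntermediateField K k').FG →
      ∀ (R : Type) [Ring R] [Algebra k R] [Module.Finite k R],
        UD R = ⊤ ∨ ∃ α : Ordinal.{0}, α < β ∧ UD R = α :=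
  Pool.Agent.H8.UG.all_FNL

end Pool.Agent.Results.MP_404602_al.CountableBound
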