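import Pool.Agent.H56.UD.Main
import Pool.Agent.H56.UD.Inf

/-!
# MP_404602_al: all natural numbers and infinity are uniserial dimensions of artin algebras

`UD R` is defined in `Pool.Agent.H56.UD.Defs`.
-/

namespace Pool.Agent.Results.MP_404602_al.FiniteValues

open Pool.Agent.H56.UDs

/-- For every algebraically closed field `k` and every `d ∈ ℕ ∪ {∞}` there is a finite-dimensional
`k`-algebra `R` whose uniserial dimension is `d`. -/
theorem result (k : Type) [Field k] [IsAlgClosed k] (d : WithTop ℕ) :
    ∃ (R : Type) (_ : Ring R) (_ : Algebra k R), Module.Finite k R ∧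
      UD R = WithTop.map (fun n : ℕ => (n : Ordinal.{0})) d := by
  induction d using WithTop.recTopCoe with
  | top => exact ⟨RAlg k GInf, inferInstance, inferInstance, ralg_finite, UD_inf⟩
  | coe m => exact ⟨RAlg k (GM m), inferInstance, inferInstance, ralg_finite, UD_fin k m⟩

end Pool.Agent.Results.MP_404602_al.FiniteValues
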